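import Pool.Agent.H979.BK.Stm

/-! NOISE: the noise of the urn chain against the random product (subtask of helper979, proved by
helper340). -/

set_option autoImplicit false

open Filter Topology Finset

namespace Pool.Agent.H340.BKN

open Pool.Agent.H979.BK

variable {d n : ℕ}

lemma sum_mem (B : Finset (Ball d n)) (ψ : Ball d n → ℝ) :
    ∑ b ∈ B, ψ b = ∑ b, if b ∈ B then ψ b else 0 := by
  rw [Finset.sum_ite_mem, Finset.univ_inter]

lemma move_sum (σ : Equiv.Perm (Fin d)) (B : Finset (Ball d n)) (u : Ball d n → Fin d)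
    (φ : Ball d n → ℝ) (l : Fin d) :
    ∑ b, (if move σ B u b = l then φ b else 0) =
      ∑ b, (if u b = l then φ b else 0) - ∑ b ∈ B, (if u b = l then φ b else 0) +
        ∑ b ∈ B, (if u b = σ⁻¹ l then φ b else 0) := by
  rw [sum_mem B (fun b => if u b = l then φ b else 0),
    sum_mem B (fun b => if u b = σ⁻¹ l then φ b else 0), ← Finset.sum_sub_distrib,
    ← Finset.sum_add_distrib]
  refine Finset.sum_congr rfl fun b _ => ?_
  unfold move
  by_cases hb : b ∈ B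
  · have h1 : (σ (u b) = l) ↔ (u b = σ⁻¹ l) := by rw [Equiv.Perm.eq_inv_iff_eq]
    simp only [hb, if_true, h1]
    ring
  · simp only [hb, if_false]
    ring

lemma sel_sum {k : ℕ} {u : Ball d n → Fin d} {B : Finset (Ball d n)} (hB : B ∈ sel k u)
    (l : Fin d) : ∑ b ∈ B, (if u b = l then (1:ℝ) else 0) = k := by
  unfold sel at hB
  rw [mem_filter] at hB
  rw [Finset.sum_boole, hB.2 l]

lemma bal_sum {u : Ball d n → Fin d} (hu : Bal u) (l : Fin d) :
    ∑ b, (if u b = l then (1:ℝ) else 0) = n := by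
  rw [Finset.sum_boole, hu l]

lemma bal_move {k : ℕ} {u : Ball d n → Fin d} (hu : Bal u) (σ : Equiv.Perm (Fin d))
    {B : Finset (Ball d n)} (hB : B ∈ sel k u) : Bal (move σ B u) := by
  intro l
  have h1 := move_sum σ B u (fun _ => 1) l
  rw [bal_sum hu, sel_sum hB, sel_sum hB, Finset.sum_boole, sub_add_cancel] at h1
  exact_mod_cast h1

lemma sel_nonempty {u : Ball d n → Fin d} (hu : Bal u) {k : ℕ} (hk : k ≤ n) :
    (sel k u).Nonempty := by
  have h : ∀ i, ∃ s ⊆ (univ.filter fun b => u b = i), s.card = k := fun i =>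
    Finset.exists_subset_card_eq (by rw [hu i]; exact hk)
  choose s hs1 hs2 using h
  refine ⟨univ.biUnion s, ?_⟩
  unfold sel
  rw [mem_filter]
  refine ⟨mem_univ _, fun i => ?_⟩
  have h2 : (univ.biUnion s).filter (fun b => u b = i) = s i := by
    ext b
    rw [mem_filter, mem_biUnion]
    constructor
    · rintro ⟨⟨j, _, hj⟩, hb⟩
      have h3 := (mem_filter.1 (hs1 j hj)).2
      rw [hb] at h3
      rw [h3]
      exact hj
    · intro hb
      exact ⟨⟨i, mem_univ _, hb⟩, (mem_filter.1 (hs1 i hb)).2⟩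
  rw [h2, hs2]

lemma sel_perm {u : Ball d n → Fin d} {k : ℕ} (ρ : Equiv.Perm (Ball d n))
    (hρ : ∀ b, u (ρ b) = u b) (F : Finset (Ball d n) → ℝ) :
    ∑ B ∈ sel k u, F (B.map ρ.toEmbedding) = ∑ B ∈ sel k u, F B := by
  refine Finset.sum_equiv (Equiv.finsetCongr ρ) (fun B => ?_) (fun B _ => rfl)
  simp only [sel, mem_filter, mem_univ, true_and, Equiv.finsetCongr_apply]
  refine forall_congr' fun i => ?_
  rw [Finset.filter_map, Finset.card_map]
  have h1 : (B.filter ((fun b => u b = i) ∘ ρ.toEmbedding)) = B.filter fun b => u b = i := by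
    refine Finset.filter_congr fun b _ => ?_
    show u (ρ b) = i ↔ u b = i
    rw [hρ]
  rw [h1]

/-- indicator -/
noncomputable def ind (B : Finset (Ball d n)) (b : Ball d n) : ℝ := if b ∈ B then 1 else 0

lemma ind_mul (B : Finset (Ball d n)) (b : Ball d n) : ind B b * ind B b = ind B b := by
  unfold ind
  split_ifs <;> simp

lemma ind_map (ρ : Equiv.Perm (Ball d n)) (B : Finset (Ball d n)) (b : Ball d n) :
    ind (B.map ρ.toEmbedding) b = ind B (ρ.symm b) := by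
  unfold ind
  simp only [Finset.mem_map_equiv]

lemma swap_u {u : Ball d n → Fin d} {b b' : Ball d n} (h : u b = u b') (x : Ball d n) :
    u (Equiv.swap b b' x) = u x := by
  by_cases h1 : x = b
  · rw [h1, Equiv.swap_apply_left, h]
  · by_cases h2 : x = b'
    · rw [h2, Equiv.swap_apply_right, h]
    · rw [Equiv.swap_apply_of_ne_of_ne h1 h2]

lemma sum_ind {k : ℕ} {u : Ball d n → Fin d} {B : Finset (Ball d n)} (hB : B ∈ sel k u)
    (l : Fin d) : ∑ b, (if u b = l then ind B b else 0) = k := by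
  rw [← sel_sum hB l, sum_mem B]
  refine Finset.sum_congr rfl fun b _ => ?_
  unfold ind
  split_ifs <;> rfl

lemma f_eq {u : Ball d n → Fin d} (hu : Bal u) {k : ℕ} (b : Ball d n) :
    (n:ℝ) * ∑ B ∈ sel k u, ind B b = k * ((sel k u).card : ℝ) := by
  have hsym : ∀ b', u b' = u b → ∑ B ∈ sel k u, ind B b' = ∑ B ∈ sel k u, ind B b := by
    intro b' h
    rw [← sel_perm (Equiv.swap b b') (swap_u h.symm) (fun B => ind B b)]
    refine Finset.sum_congr rfl fun B _ => ?_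
    rw [ind_map, Equiv.symm_swap, Equiv.swap_apply_left]
  have h2 : ∑ b', (if u b' = u b then ∑ B ∈ sel k u, ind B b' else 0) =
      n * ∑ B ∈ sel k u, ind B b := by
    rw [← bal_sum hu (u b), Finset.sum_mul]
    refine Finset.sum_congr rfl fun b' _ => ?_
    split_ifs with h
    · rw [hsym b' h, one_mul]
    · rw [zero_mul]
  have h3 : ∑ b', (if u b' = u b then ∑ B ∈ sel k u, ind B b' else 0) =
      ∑ B ∈ sel k u, ∑ b', (if u b' = u b then ind B b' else 0) := by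
    rw [Finset.sum_comm]
    refine Finset.sum_congr rfl fun b' _ => ?_
    split_ifs with h
    · rfl
    · simp
  rw [← h2, h3, Finset.sum_congr rfl fun B hB => sum_ind hB (u b), Finset.sum_const,
    nsmul_eq_mul, mul_comm]

lemma g_eq {u : Ball d n → Fin d} (hu : Bal u) {k : ℕ} {b b' : Ball d n} (hbb : b ≠ b')
    (hub : u b' = u b) :
    ((n:ℝ) - 1) * ∑ B ∈ sel k u, ind B b * ind B b' =
      ((k:ℝ) - 1) * ∑ B ∈ sel k u, ind B b := by
  obtain ⟨g0, hg0⟩ : ∃ g0 : ℝ, g0 = ∑ B ∈ sel k u, ind B b * ind B b' := ⟨_, rfl⟩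
  obtain ⟨f0, hf0⟩ : ∃ f0 : ℝ, f0 = ∑ B ∈ sel k u, ind B b := ⟨_, rfl⟩
  have hsym : ∀ b'', u b'' = u b → b'' ≠ b → ∑ B ∈ sel k u, ind B b * ind B b'' = g0 := by
    intro b'' h hne
    rw [hg0, ← sel_perm (Equiv.swap b' b'') (swap_u (hub.trans h.symm))
      (fun B => ind B b * ind B b')]
    refine Finset.sum_congr rfl fun B _ => ?_
    rw [ind_map, ind_map, Equiv.symm_swap, Equiv.swap_apply_left,
      Equiv.swap_apply_of_ne_of_ne hbb hne.symm]
  have h2 : ∑ b'', (if u b'' = u b then ∑ B ∈ sel k u, ind B b * ind B b'' else 0) =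
      n * g0 + (f0 - g0) := by
    have h4 : ∑ b'', (if b'' = b then (f0 - g0) else 0) = f0 - g0 := by
      rw [Finset.sum_ite_eq']
      simp
    rw [← bal_sum hu (u b), Finset.sum_mul, ← h4, ← Finset.sum_add_distrib]
    refine Finset.sum_congr rfl fun b'' _ => ?_
    by_cases hb : b'' = b
    · rw [hb]
      simp only [if_true]
      have h5 : ∑ B ∈ sel k u, ind B b * ind B b = f0 := by
        rw [hf0]
        exact Finset.sum_congr rfl fun B _ => ind_mul B b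
      rw [h5]
      ring
    · rw [if_neg hb]
      split_ifs with h
      · rw [hsym b'' h hb]
        ring
      · ring
  have h3 : ∑ b'', (if u b'' = u b then ∑ B ∈ sel k u, ind B b * ind B b'' else 0) =
      ∑ B ∈ sel k u, ind B b * ∑ b'', (if u b'' = u b then ind B b'' else 0) := by
    have h6 : ∀ B : Finset (Ball d n), ind B b * ∑ b'', (if u b'' = u b then ind B b'' else 0) =
        ∑ b'', (if u b'' = u b then ind B b * ind B b'' else 0) := by
      intro B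
      rw [Finset.mul_sum]
      refine Finset.sum_congr rfl fun b'' _ => ?_
      rw [mul_ite, mul_zero]
    rw [Finset.sum_congr rfl fun B _ => h6 B, Finset.sum_comm]
    refine Finset.sum_congr rfl fun b'' _ => ?_
    split_ifs with h
    · rfl
    · simp
  have h7 : ∑ B ∈ sel k u, ind B b * ∑ b'', (if u b'' = u b then ind B b'' else 0) = f0 * k := by
    rw [hf0, Finset.sum_mul]
    refine Finset.sum_congr rfl fun B hB => ?_
    rw [sum_ind hB (u b)]
  rw [← hg0, ← hf0]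
  have h8 : (n:ℝ) * g0 + (f0 - g0) = f0 * k := by rw [← h2, h3, h7]
  linarith

section moments

variable {u : Ball d n → Fin d} {k : ℕ} {ψ : Ball d n → ℝ} {l : Fin d}

lemma mean_eq (hu : Bal u) (hn : 2 ≤ n) :
    ∑ B ∈ sel k u, ∑ b, ψ b * ind B b =
      (k:ℝ) / n * ((sel k u).card : ℝ) * ∑ b, ψ b := by
  have hn0 : (n:ℝ) ≠ 0 := by
    have : n ≠ 0 := by omega
    exact_mod_cast this
  rw [Finset.sum_comm, Finset.mul_sum]
  refine Finset.sum_congr rfl fun b _ => ?_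
  rw [← Finset.mul_sum]
  have h1 := f_eq hu (k := k) b
  have h2 : ∑ B ∈ sel k u, ind B b = (k:ℝ) / n * ((sel k u).card : ℝ) := by
    field_simp
    linarith
  rw [h2]
  ring

lemma sq_eq (hu : Bal u) (hn : 2 ≤ n) (h01 : ∀ b, ψ b * ψ b = ψ b)
    (hl : ∀ b, ψ b ≠ 0 → u b = l) :
    ∑ B ∈ sel k u, (∑ b, ψ b * ind B b) ^ 2 =
      ((k:ℝ) - 1) / ((n:ℝ) - 1) * ((k:ℝ) / n * ((sel k u).card : ℝ)) * (∑ b, ψ b) ^ 2 +
      ((k:ℝ) / n * ((sel k u).card : ℝ) -
        ((k:ℝ) - 1) / ((n:ℝ) - 1) * ((k:ℝ) / n * ((sel k u).card : ℝ))) * ∑ b, ψ b := by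
  have hn0 : (n:ℝ) ≠ 0 := by
    have : n ≠ 0 := by omega
    exact_mod_cast this
  have hn1 : (n:ℝ) - 1 ≠ 0 := by
    have : (2:ℝ) ≤ n := by exact_mod_cast hn
    intro h
    linarith
  obtain ⟨f0, hf0⟩ : ∃ f0 : ℝ, f0 = (k:ℝ) / n * ((sel k u).card : ℝ) := ⟨_, rfl⟩
  obtain ⟨g0, hg0⟩ : ∃ g0 : ℝ, g0 = ((k:ℝ) - 1) / ((n:ℝ) - 1) * f0 := ⟨_, rfl⟩
  rw [← hf0, ← hg0]
  have hf : ∀ b, ∑ B ∈ sel k u, ind B b = f0 := by
    intro b
    have h1 := f_eq hu (k := k) b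
    rw [hf0]
    field_simp
    linarith
  have hG : ∀ b b', ψ b * ψ b' * ∑ B ∈ sel k u, ind B b * ind B b' =
      ψ b * ψ b' * g0 + if b' = b then (f0 - g0) * ψ b else 0 := by
    intro b b'
    by_cases hbb : b' = b
    · rw [hbb, if_pos rfl, h01]
      have h5 : ∑ B ∈ sel k u, ind B b * ind B b = f0 := by
        rw [← hf b]
        exact Finset.sum_congr rfl fun B _ => ind_mul B b
      rw [h5]
      ring
    · rw [if_neg hbb, add_zero]
      by_cases h1 : ψ b = 0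
      · rw [h1]
        ring
      by_cases h2 : ψ b' = 0
      · rw [h2]
        ring
      have h3 := g_eq hu (k := k) (Ne.symm hbb) ((hl b' h2).trans (hl b h1).symm)
      rw [hf b] at h3
      have h4 : ∑ B ∈ sel k u, ind B b * ind B b' = g0 := by
        rw [hg0]
        field_simp
        linarith
      rw [h4]
  have h1 : ∀ B : Finset (Ball d n), (∑ b, ψ b * ind B b) ^ 2 =
      ∑ b, ∑ b', ψ b * ψ b' * (ind B b * ind B b') := by
    intro B
    rw [sq, Finset.sum_mul_sum]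
    refine Finset.sum_congr rfl fun b _ => Finset.sum_congr rfl fun b' _ => ?_
    ring
  rw [Finset.sum_congr rfl fun B _ => h1 B, Finset.sum_comm]
  have h2 : ∀ b, ∑ B ∈ sel k u, ∑ b', ψ b * ψ b' * (ind B b * ind B b') =
      ψ b * (∑ b', ψ b') * g0 + (f0 - g0) * ψ b := by
    intro b
    rw [Finset.sum_comm]
    have h3 : ∀ b', ∑ B ∈ sel k u, ψ b * ψ b' * (ind B b * ind B b') =
        ψ b * ψ b' * g0 + if b' = b then (f0 - g0) * ψ b else 0 := by
      intro b'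
      rw [← Finset.mul_sum, hG]
    rw [Finset.sum_congr rfl fun b' _ => h3 b', Finset.sum_add_distrib, Finset.sum_ite_eq']
    simp only [mem_univ, if_true]
    rw [← Finset.sum_mul, ← Finset.mul_sum]
  rw [Finset.sum_congr rfl fun b _ => h2 b, Finset.sum_add_distrib, ← Finset.sum_mul,
    ← Finset.sum_mul, ← Finset.mul_sum]
  ring

lemma var_le (hu : Bal u) (hn : 2 ≤ n) (hk : 1 ≤ k) (hkn : k ≤ n)
    (h01 : ∀ b, ψ b * ψ b = ψ b) (hl : ∀ b, ψ b ≠ 0 → u b = l) :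
    ∑ B ∈ sel k u, (∑ b, ψ b * ind B b - (k:ℝ) / n * ∑ b, ψ b) ^ 2 ≤
      k * ((sel k u).card : ℝ) := by
  obtain ⟨R, hR⟩ : ∃ R : ℝ, R = ∑ b, ψ b := ⟨_, rfl⟩
  obtain ⟨s, hs⟩ : ∃ s : ℝ, s = ((sel k u).card : ℝ) := ⟨_, rfl⟩
  have hs0 : 0 ≤ s := by rw [hs]; positivity
  have hn2 : (2:ℝ) ≤ n := by exact_mod_cast hn
  have hk1 : (1:ℝ) ≤ k := by exact_mod_cast hk
  have hknr : (k:ℝ) ≤ n := by exact_mod_cast hkn
  have hψ : ∀ b, 0 ≤ ψ b ∧ ψ b ≤ if u b = l then 1 else 0 := by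
    intro b
    have h1 : 0 ≤ ψ b := by
      rw [← h01 b]
      exact mul_self_nonneg _
    refine ⟨h1, ?_⟩
    split_ifs with h
    · have h2 : ψ b * (ψ b - 1) = 0 := by rw [mul_sub, h01, mul_one, sub_self]
      rcases mul_eq_zero.1 h2 with h3 | h3 <;> linarith
    · by_contra h2
      exact h (hl b fun h3 => h2 h3.le)
  have hR0 : 0 ≤ R := by rw [hR]; exact Finset.sum_nonneg fun b _ => (hψ b).1
  have hRn : R ≤ n := by
    rw [hR, ← bal_sum hu l]
    exact Finset.sum_le_sum fun b _ => (hψ b).2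
  have h1 : ∀ B : Finset (Ball d n), (∑ b, ψ b * ind B b - (k:ℝ) / n * R) ^ 2 =
      (∑ b, ψ b * ind B b) ^ 2 - 2 * ((k:ℝ) / n * R) * (∑ b, ψ b * ind B b) +
        ((k:ℝ) / n * R) ^ 2 := by
    intro B
    ring
  rw [← hR, Finset.sum_congr rfl fun B _ => h1 B, Finset.sum_add_distrib, Finset.sum_sub_distrib,
    ← Finset.mul_sum, mean_eq hu hn, sq_eq hu hn h01 hl, Finset.sum_const, nsmul_eq_mul, ← hR,
    ← hs]
  obtain ⟨δ, hδ⟩ : ∃ δ : ℝ, δ = (k:ℝ) / n := ⟨_, rfl⟩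
  obtain ⟨γ, hγ⟩ : ∃ γ : ℝ, γ = ((k:ℝ) - 1) / ((n:ℝ) - 1) := ⟨_, rfl⟩
  rw [← hδ, ← hγ]
  have hδ0 : 0 ≤ δ := by rw [hδ]; positivity
  have hγ0 : 0 ≤ γ := by
    rw [hγ]
    exact div_nonneg (by linarith) (by linarith)
  have hγδ : γ ≤ δ := by
    rw [hγ, hδ, div_le_div_iff₀ (by linarith) (by linarith)]
    nlinarith
  have hδR : δ * R ≤ k := by
    rw [hδ, div_mul_eq_mul_div, div_le_iff₀ (by linarith)]
    exact mul_le_mul_of_nonneg_left hRn (by linarith)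
  have key : γ * (R * R - R) ≤ δ * (R * R) := by
    rcases le_total 0 (R * R - R) with h | h
    · calc γ * (R * R - R) ≤ δ * (R * R - R) := mul_le_mul_of_nonneg_right hγδ h
        _ ≤ δ * (R * R) := mul_le_mul_of_nonneg_left (by linarith) hδ0
    · calc γ * (R * R - R) ≤ 0 := mul_nonpos_of_nonneg_of_nonpos hγ0 h
        _ ≤ _ := by positivity
  have e1 : γ * (δ * s) * R ^ 2 + (δ * s - γ * (δ * s)) * R -
      2 * (δ * R) * (δ * s * R) + s * (δ * R) ^ 2 =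
      (δ * s) * (γ * (R * R - R) - δ * (R * R)) + (δ * R) * s := by ring
  rw [e1]
  have h2 : (δ * s) * (γ * (R * R - R) - δ * (R * R)) ≤ 0 :=
    mul_nonpos_of_nonneg_of_nonpos (by positivity) (by linarith)
  have h3 : (δ * R) * s ≤ k * s := mul_le_mul_of_nonneg_right hδR hs0
  linarith

end moments

lemma vecMul_A (δ : ℝ) (σ : Equiv.Perm (Fin d)) (w : Fin d → ℝ) (l : Fin d) :
    Matrix.vecMul w (A δ σ) l = (1 - δ) * w l + δ * w (σ⁻¹ l) := by
  have h1 : Matrix.vecMul w (A δ σ) l = ∑ i, w i * (A δ σ i l) := rfl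
  rw [h1]
  have h2 : ∀ i, w i * (A δ σ i l) = (if i = l then (1 - δ) * w i else 0) +
      (if i = σ⁻¹ l then δ * w i else 0) := by
    intro i
    unfold A
    have h3 : (σ i = l) ↔ (i = σ⁻¹ l) := by rw [Equiv.Perm.eq_inv_iff_eq]
    simp only [h3]
    split_ifs <;> ring
  rw [Finset.sum_congr rfl fun i _ => h2 i, Finset.sum_add_distrib, Finset.sum_ite_eq',
    Finset.sum_ite_eq']
  simp

/-- number of the balls of the start urn `j0` -/
lemma cnt_eq (u : Ball d n → Fin d) (l j0 : Fin d) :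
    ((cnt Prod.fst u l j0 : ℕ) : ℝ) =
      ∑ b : Ball d n, (if u b = l then (if b.1 = j0 then (1:ℝ) else 0) else 0) := by
  unfold cnt
  rw [← Finset.sum_boole]
  refine Finset.sum_congr rfl fun b _ => ?_
  by_cases h1 : u b = l
  · simp [h1]
  · simp [h1]

/-- one step with `σ` -/
lemma step {u : Ball d n → Fin d} (hu : Bal u) {k : ℕ} (hk : 1 ≤ k) (hkn : k ≤ n) (hn : 2 ≤ n)
    (σ : Equiv.Perm (Fin d)) (w : Fin d → ℝ) (j0 : Fin d) :
    (∑ B ∈ sel k u, ∑ l, ((cnt Prod.fst (move σ B u) l j0 : ℝ) -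
      n * Matrix.vecMul w (A ((k:ℝ)/n) σ) l) ^ 2) / ((sel k u).card : ℝ) ≤
    ∑ l, ((1 - (k:ℝ)/n) * ((cnt Prod.fst u l j0 : ℝ) - n * w l) +
      (k:ℝ)/n * ((cnt Prod.fst u (σ⁻¹ l) j0 : ℝ) - n * w (σ⁻¹ l))) ^ 2 + 4 * d * k := by
  obtain ⟨s, hs⟩ : ∃ s : ℝ, s = ((sel k u).card : ℝ) := ⟨_, rfl⟩
  have hs0 : 0 < s := by
    rw [hs]
    exact_mod_cast (sel_nonempty hu hkn).card_pos
  obtain ⟨δ, hδ⟩ : ∃ δ : ℝ, δ = (k:ℝ) / n := ⟨_, rfl⟩
  obtain ⟨ψ, hψ⟩ : ∃ ψ : Fin d → Ball d n → ℝ, ψ = fun l b =>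
    if u b = l then (if b.1 = j0 then (1:ℝ) else 0) else 0 := ⟨_, rfl⟩
  obtain ⟨r, hr⟩ : ∃ r : Fin d → ℝ, r = fun l => ∑ b, ψ l b := ⟨_, rfl⟩
  have hrc : ∀ l, ((cnt Prod.fst u l j0 : ℕ) : ℝ) = r l := by
    intro l
    rw [cnt_eq, hr, hψ]
  obtain ⟨X, hX⟩ : ∃ X : Finset (Ball d n) → Fin d → ℝ, X = fun B l =>
    ∑ b, ψ l b * ind B b - δ * r l := ⟨_, rfl⟩
  have hψ01 : ∀ l b, ψ l b * ψ l b = ψ l b := by
    intro l b
    rw [hψ]
    simp only
    split_ifs <;> simp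
  have hψl : ∀ l b, ψ l b ≠ 0 → u b = l := by
    intro l b h
    by_contra h1
    apply h
    rw [hψ]
    simp only [h1, if_false]
  have hmean : ∀ l, ∑ B ∈ sel k u, X B l = 0 := by
    intro l
    rw [hX]
    simp only
    rw [Finset.sum_sub_distrib, mean_eq hu hn, Finset.sum_const, nsmul_eq_mul, hr, hδ]
    ring
  have hvar : ∀ l, ∑ B ∈ sel k u, (X B l) ^ 2 ≤ k * s := by
    intro l
    rw [hX, hs, hr, hδ]
    exact var_le hu hn hk hkn (hψ01 l) (hψl l)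
  obtain ⟨e', he'⟩ : ∃ e' : Fin d → ℝ, e' = fun l =>
    (1 - δ) * (r l - n * w l) + δ * (r (σ⁻¹ l) - n * w (σ⁻¹ l)) := ⟨_, rfl⟩
  have hmv : ∀ B l, ((cnt Prod.fst (move σ B u) l j0 : ℕ) : ℝ) -
      n * Matrix.vecMul w (A ((k:ℝ)/n) σ) l = e' l + (X B (σ⁻¹ l) - X B l) := by
    intro B l
    rw [cnt_eq, move_sum, vecMul_A, ← hδ, he', hX]
    simp only
    have h1 : ∀ l', ∑ b ∈ B, (if u b = l' then (if b.1 = j0 then (1:ℝ) else 0) else 0) =
        ∑ b, ψ l' b * ind B b := by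
      intro l'
      rw [sum_mem]
      refine Finset.sum_congr rfl fun b _ => ?_
      rw [hψ]
      unfold ind
      simp only
      split_ifs <;> simp
    rw [h1, h1]
    have h2 : ∑ b, (if u b = l then (if b.1 = j0 then (1:ℝ) else 0) else 0) = r l := by
      rw [hr, hψ]
    rw [h2]
    ring
  have hrhs : ∀ l, (1 - (k:ℝ)/n) * ((cnt Prod.fst u l j0 : ℝ) - n * w l) +
      (k:ℝ)/n * ((cnt Prod.fst u (σ⁻¹ l) j0 : ℝ) - n * w (σ⁻¹ l)) = e' l := by
    intro l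
    rw [hrc, hrc, he', ← hδ]
  have hL : ∑ B ∈ sel k u, ∑ l, ((cnt Prod.fst (move σ B u) l j0 : ℝ) -
      n * Matrix.vecMul w (A ((k:ℝ)/n) σ) l) ^ 2 =
      ∑ l, ∑ B ∈ sel k u, (e' l + (X B (σ⁻¹ l) - X B l)) ^ 2 := by
    rw [Finset.sum_comm]
    refine Finset.sum_congr rfl fun l _ => Finset.sum_congr rfl fun B _ => ?_
    rw [hmv B l]
  have hR : ∑ l, ((1 - (k:ℝ)/n) * ((cnt Prod.fst u l j0 : ℝ) - n * w l) +
      (k:ℝ)/n * ((cnt Prod.fst u (σ⁻¹ l) j0 : ℝ) - n * w (σ⁻¹ l))) ^ 2 = ∑ l, (e' l) ^ 2 := by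
    refine Finset.sum_congr rfl fun l _ => ?_
    rw [hrhs l]
  rw [hL, hR, ← hs, div_le_iff₀ hs0]
  have hone : ∀ l, ∑ B ∈ sel k u, (e' l + (X B (σ⁻¹ l) - X B l)) ^ 2 ≤
      s * (e' l) ^ 2 + 4 * k * s := by
    intro l
    have h1 : ∀ B, (e' l + (X B (σ⁻¹ l) - X B l)) ^ 2 ≤
        (e' l) ^ 2 + 2 * e' l * (X B (σ⁻¹ l) - X B l) +
          (2 * (X B (σ⁻¹ l)) ^ 2 + 2 * (X B l) ^ 2) := by
      intro B
      nlinarith [sq_nonneg (X B (σ⁻¹ l) + X B l)]
    refine (Finset.sum_le_sum fun B _ => h1 B).trans ?_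
    rw [Finset.sum_add_distrib, Finset.sum_add_distrib, Finset.sum_add_distrib, Finset.sum_const,
      nsmul_eq_mul, ← hs, ← Finset.mul_sum, Finset.sum_sub_distrib, hmean, hmean,
      ← Finset.mul_sum, ← Finset.mul_sum]
    have h2 := hvar l
    have h3 := hvar (σ⁻¹ l)
    linarith
  refine (Finset.sum_le_sum fun l _ => hone l).trans ?_
  rw [Finset.sum_add_distrib, ← Finset.mul_sum, Finset.sum_const, Finset.card_univ,
    Fintype.card_fin, nsmul_eq_mul]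
  apply le_of_eq
  ring

/-- one step of the chain, all `σ` -/
lemma avg {μ : Equiv.Perm (Fin d) → ℝ} (hμ : IsProb μ) {c : ℝ}
    (hc0 : 0 < c) (hc : ∀ y : Fin d → ℝ, ∑ i, y i = 0 →
      ∑ i, y i * (U μ).mulVec y i ≤ (1 - c) * ∑ i, y i ^ 2) {δ : ℝ} (hδ0 : 0 ≤ δ)
    (hδ : δ ≤ 1/2) (e : Fin d → ℝ) (he : ∑ i, e i = 0) :
    ∑ σ, μ σ * ∑ l, ((1 - δ) * e l + δ * e (σ⁻¹ l)) ^ 2 ≤ (1 - c * δ) * ∑ l, e l ^ 2 := by
  have h1 : ∀ σ : Equiv.Perm (Fin d), ∑ l, ((1 - δ) * e l + δ * e (σ⁻¹ l)) ^ 2 =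
      ((1 - δ)^2 + δ^2) * ∑ l, e l ^ 2 + 2 * δ * (1 - δ) * ∑ i, e i * e (σ i) := by
    intro σ
    have h2 : ∑ l, e (σ⁻¹ l) ^ 2 = ∑ l, e l ^ 2 := Equiv.sum_comp σ⁻¹ (fun l => e l ^ 2)
    have h3 : ∑ l, e l * e (σ⁻¹ l) = ∑ i, e i * e (σ i) := by
      rw [← Equiv.sum_comp σ (fun l => e l * e (σ⁻¹ l))]
      refine Finset.sum_congr rfl fun i _ => ?_
      have h33 : σ⁻¹ (σ i) = i := σ.symm_apply_apply i
      rw [h33]
      ring
    have h4 : ∀ l, ((1 - δ) * e l + δ * e (σ⁻¹ l)) ^ 2 = (1 - δ)^2 * e l ^ 2 +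
        δ^2 * e (σ⁻¹ l) ^ 2 + 2 * δ * (1 - δ) * (e l * e (σ⁻¹ l)) := by
      intro l
      ring
    rw [Finset.sum_congr rfl fun l _ => h4 l, Finset.sum_add_distrib, Finset.sum_add_distrib,
      ← Finset.mul_sum, ← Finset.mul_sum, ← Finset.mul_sum, h2, h3]
    ring
  have h5 : ∑ σ, μ σ * ∑ i, e i * e (σ i) = ∑ i, e i * (U μ).mulVec e i := by
    have h6 : ∀ i, (U μ).mulVec e i = ∑ σ, μ σ * e (σ i) := by
      intro i
      have h7 : (U μ).mulVec e i = ∑ j, (∑ σ, if σ i = j then μ σ else 0) * e j := rfl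
      rw [h7]
      have h8 : ∀ j, (∑ σ : Equiv.Perm (Fin d), if σ i = j then μ σ else 0) * e j =
          ∑ σ : Equiv.Perm (Fin d), if j = σ i then μ σ * e j else 0 := by
        intro j
        rw [Finset.sum_mul]
        refine Finset.sum_congr rfl fun σ _ => ?_
        simp only [eq_comm (a := σ i) (b := j)]
        split_ifs <;> simp
      rw [Finset.sum_congr rfl fun j _ => h8 j, Finset.sum_comm]
      refine Finset.sum_congr rfl fun σ _ => ?_
      rw [Finset.sum_ite_eq']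
      simp
    have h61 : ∑ i, e i * (U μ).mulVec e i = ∑ i, ∑ σ : Equiv.Perm (Fin d), e i * (μ σ * e (σ i)) := by
      refine Finset.sum_congr rfl fun i _ => ?_
      rw [h6 i, Finset.mul_sum]
    have h62 : ∑ σ, μ σ * ∑ i, e i * e (σ i) =
        ∑ σ : Equiv.Perm (Fin d), ∑ i, μ σ * (e i * e (σ i)) := by
      refine Finset.sum_congr rfl fun σ _ => ?_
      rw [Finset.mul_sum]
    rw [h61, h62, Finset.sum_comm]
    refine Finset.sum_congr rfl fun i _ => Finset.sum_congr rfl fun σ _ => ?_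
    ring
  have h9 : ∑ σ, μ σ * ∑ l, ((1 - δ) * e l + δ * e (σ⁻¹ l)) ^ 2 =
      ((1 - δ)^2 + δ^2) * ∑ l, e l ^ 2 + 2 * δ * (1 - δ) * ∑ i, e i * (U μ).mulVec e i := by
    rw [← h5]
    have h10 : ∀ σ : Equiv.Perm (Fin d), μ σ * ∑ l, ((1 - δ) * e l + δ * e (σ⁻¹ l)) ^ 2 =
        μ σ * (((1 - δ)^2 + δ^2) * ∑ l, e l ^ 2) +
          2 * δ * (1 - δ) * (μ σ * ∑ i, e i * e (σ i)) := by
      intro σ
      rw [h1]
      ring
    rw [Finset.sum_congr rfl fun σ _ => h10 σ, Finset.sum_add_distrib, ← Finset.sum_mul, hμ.2,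
      one_mul, ← Finset.mul_sum]
  rw [h9]
  have h11 := hc e he
  have h12 : 0 ≤ ∑ l, e l ^ 2 := Finset.sum_nonneg fun _ _ => sq_nonneg _
  have h13 : 0 ≤ 2 * δ * (1 - δ) := by
    have : 0 ≤ 1 - δ := by linarith
    positivity
  have h14 := mul_le_mul_of_nonneg_left h11 h13
  have h15 : c * δ * (∑ l, e l ^ 2) ≤ 2 * δ * (1 - δ) * c * ∑ l, e l ^ 2 := by
    apply mul_le_mul_of_nonneg_right _ h12
    have : 0 ≤ c * δ := by positivity
    nlinarith
  calc _ ≤ ((1 - δ)^2 + δ^2) * ∑ l, e l ^ 2 +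
        2 * δ * (1 - δ) * ((1 - c) * ∑ l, e l ^ 2) := by linarith
    _ = ∑ l, e l ^ 2 - 2 * δ * (1 - δ) * c * ∑ l, e l ^ 2 := by ring
    _ ≤ (1 - c * δ) * ∑ l, e l ^ 2 := by linarith

theorem noise (hsym : S_SYM) : S_NOISE := by
  intro d μ hd hμ hI
  obtain ⟨c0, hc0, hcc⟩ := hsym d μ hd hμ hI
  obtain ⟨c, hcd⟩ : ∃ c : ℝ, c = min c0 1 := ⟨_, rfl⟩
  have hcpos : 0 < c := by rw [hcd]; exact lt_min hc0 one_pos
  have hc1 : c ≤ 1 := by rw [hcd]; exact min_le_right _ _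
  have hc : ∀ y : Fin d → ℝ, ∑ i, y i = 0 →
      ∑ i, y i * (U μ).mulVec y i ≤ (1 - c) * ∑ i, y i ^ 2 := by
    intro y hy
    refine (hcc y hy).trans ?_
    apply mul_le_mul_of_nonneg_right _ (Finset.sum_nonneg fun _ _ => sq_nonneg _)
    have : c ≤ c0 := by rw [hcd]; exact min_le_left _ _
    linarith
  have hd0 : (0:ℝ) < d := by exact_mod_cast (by omega : 0 < d)
  refine ⟨4 * d / c, by positivity, ?_⟩
  intro n k hk hkn m j0 θ hθ
  have hn2 : 2 ≤ n := by omega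
  have hkn' : k ≤ n := by omega
  have hn0 : (0:ℝ) < n := by exact_mod_cast (by omega : 0 < n)
  have hk0 : (0:ℝ) < k := by exact_mod_cast (by omega : 0 < k)
  obtain ⟨δ, hδ⟩ : ∃ δ : ℝ, δ = (k:ℝ) / n := ⟨_, rfl⟩
  have hδ0 : 0 < δ := by rw [hδ]; positivity
  have hδh : δ ≤ 1/2 := by
    rw [hδ, div_le_div_iff₀ hn0 (by norm_num)]
    have : 2 * (k:ℝ) ≤ n := by exact_mod_cast hkn
    linarith
  have hδk : δ * n = k := by rw [hδ]; field_simp
  obtain ⟨ρ, hρ⟩ : ∃ ρ : ℝ, ρ = 1 - c * δ := ⟨_, rfl⟩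
  have hρ0 : 0 ≤ ρ := by
    rw [hρ]
    nlinarith
  obtain ⟨KK, hKK⟩ : ∃ KK : ℝ, KK = 4 * d * n / c := ⟨_, rfl⟩
  have hKK0 : 0 ≤ KK := by rw [hKK]; positivity
  have hKρ : (1 - ρ) * KK = 4 * d * k := by
    rw [hρ, hKK, ← hδk]
    field_simp
    ring
  obtain ⟨Φ, hΦ⟩ : ∃ Φ : (Ball d n → Fin d) → (Fin d → ℝ) → ℝ, Φ = fun u w =>
    ∑ l, ((cnt Prod.fst u l j0 : ℝ) - n * w l) ^ 2 := ⟨_, rfl⟩
  have hΦ0 : ∀ u w, 0 ≤ Φ u w := by
    intro u w
    rw [hΦ]
    exact Finset.sum_nonneg fun _ _ => sq_nonneg _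
  obtain ⟨g, hg⟩ : ∃ g : (Ball d n → Fin d) → ℝ, g = fun u =>
    if ∑ l, ((cnt Prod.fst u l j0 : ℝ) - (n : ℝ) / d) ^ 2 < θ ^ 2 then 1 else 0 := ⟨_, rfl⟩
  obtain ⟨h, hh⟩ : ∃ h : (Fin d → ℝ) → ℝ, h = fun w =>
    if (n : ℝ) ^ 2 * ∑ l, (w l - 1 / (d : ℝ)) ^ 2 < 4 * θ ^ 2 then 1 else 0 := ⟨_, rfl⟩
  rw [← hg, ← hh, ← hδ]
  have hθ2 : 0 < θ ^ 2 := by positivity
  -- pointwise inequality
  have hpt : ∀ u w, g u ≤ h w + Φ u w / θ ^ 2 := by
    intro u w
    have hq : 0 ≤ Φ u w / θ ^ 2 := div_nonneg (hΦ0 u w) hθ2.le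
    rw [hg, hh]
    simp only
    by_cases h1 : (n : ℝ) ^ 2 * ∑ l, (w l - 1 / (d : ℝ)) ^ 2 < 4 * θ ^ 2
    · rw [if_pos h1]
      split_ifs <;> linarith
    · rw [if_neg h1]
      by_cases h2 : ∑ l, ((cnt Prod.fst u l j0 : ℝ) - (n : ℝ) / d) ^ 2 < θ ^ 2
      · rw [if_pos h2, zero_add, one_le_div hθ2]
        have h3 : (n : ℝ) ^ 2 * ∑ l, (w l - 1 / (d : ℝ)) ^ 2 ≤
            2 * Φ u w + 2 * ∑ l, ((cnt Prod.fst u l j0 : ℝ) - (n : ℝ) / d) ^ 2 := by
          rw [hΦ]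
          simp only
          rw [Finset.mul_sum, Finset.mul_sum, Finset.mul_sum, ← Finset.sum_add_distrib]
          refine Finset.sum_le_sum fun l _ => ?_
          have h4 : (n:ℝ)^2 * (w l - 1 / (d:ℝ))^2 = (n * w l - n / d)^2 := by
            field_simp
          rw [h4]
          nlinarith [sq_nonneg (((cnt Prod.fst u l j0 : ℝ) - n * w l) +
            ((cnt Prod.fst u l j0 : ℝ) - (n : ℝ) / d))]
        push Not at h1
        linarith
      · rw [if_neg h2]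
        linarith
  -- the main induction
  have main : ∀ (m : ℕ) (u : Ball d n → Fin d) (w : Fin d → ℝ), Bal u → ∑ l, w l = 1 →
      (T μ k)^[m] g u ≤ (KR μ δ)^[m] h w + (ρ ^ m * Φ u w + KK * (1 - ρ ^ m)) / θ ^ 2 := by
    intro m
    induction m with
    | zero =>
      intro u w _ _
      simp only [Function.iterate_zero, id_eq, pow_zero, one_mul, sub_self, mul_zero, add_zero]
      exact hpt u w
    | succ m ih =>
      intro u w hu hw
      rw [Function.iterate_succ_apply', Function.iterate_succ_apply']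
      obtain ⟨s, hs⟩ : ∃ s : ℝ, s = ((sel k u).card : ℝ) := ⟨_, rfl⟩
      have hs0 : 0 < s := by
        rw [hs]
        exact_mod_cast (sel_nonempty hu hkn').card_pos
      have hw' : ∀ σ : Equiv.Perm (Fin d), ∑ l, Matrix.vecMul w (A δ σ) l = 1 := by
        intro σ
        rw [Finset.sum_congr rfl fun l _ => vecMul_A δ σ w l, Finset.sum_add_distrib,
          ← Finset.mul_sum, ← Finset.mul_sum, Equiv.sum_comp σ⁻¹ w, hw]
        ring
      -- bound for each `σ`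
      have h1 : ∀ σ, Ts k σ ((T μ k)^[m] g) u ≤ (KR μ δ)^[m] h (Matrix.vecMul w (A δ σ)) +
          (ρ ^ m * ((∑ B ∈ sel k u, Φ (move σ B u) (Matrix.vecMul w (A δ σ))) / s) +
            KK * (1 - ρ ^ m)) / θ ^ 2 := by
        intro σ
        unfold Ts
        rw [← hs, div_le_iff₀ hs0]
        have h2 : ∑ B ∈ sel k u, (T μ k)^[m] g (move σ B u) ≤
            ∑ B ∈ sel k u, ((KR μ δ)^[m] h (Matrix.vecMul w (A δ σ)) +
              (ρ ^ m * Φ (move σ B u) (Matrix.vecMul w (A δ σ)) + KK * (1 - ρ ^ m)) / θ ^ 2) :=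
          Finset.sum_le_sum fun B hB => ih _ _ (bal_move hu σ hB) (hw' σ)
        refine h2.trans (le_of_eq ?_)
        rw [Finset.sum_add_distrib, Finset.sum_const, nsmul_eq_mul, ← hs, ← Finset.sum_div,
          Finset.sum_add_distrib, Finset.sum_const, nsmul_eq_mul, ← hs, ← Finset.mul_sum]
        field_simp
      have h3 : ∀ σ, (∑ B ∈ sel k u, Φ (move σ B u) (Matrix.vecMul w (A δ σ))) / s ≤
          ∑ l, ((1 - δ) * ((cnt Prod.fst u l j0 : ℝ) - n * w l) +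
            δ * ((cnt Prod.fst u (σ⁻¹ l) j0 : ℝ) - n * w (σ⁻¹ l))) ^ 2 + 4 * d * k := by
        intro σ
        rw [hΦ, hs, hδ]
        exact step hu hk hkn' hn2 σ w j0
      -- zero sum
      have hcntsum : ∑ l, ((cnt Prod.fst u l j0 : ℕ) : ℝ) = n := by
        rw [Finset.sum_congr rfl fun l _ => cnt_eq u l j0, Finset.sum_comm]
        have h4 : ∀ b : Ball d n, ∑ l, (if u b = l then (if b.1 = j0 then (1:ℝ) else 0) else 0) =
            if b.1 = j0 then (1:ℝ) else 0 := by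
          intro b
          rw [Finset.sum_ite_eq]
          simp
        rw [Finset.sum_congr rfl fun b _ => h4 b, Fintype.sum_prod_type]
        have h5 : ∀ x : Fin d, ∑ y : Fin n, (if ((x, y) : Ball d n).1 = j0 then (1:ℝ) else 0) =
            if x = j0 then (n:ℝ) else 0 := by
          intro x
          simp only
          split_ifs <;> simp
        rw [Finset.sum_congr rfl fun x _ => h5 x, Finset.sum_ite_eq']
        simp
      have hzs : ∑ l, (((cnt Prod.fst u l j0 : ℕ) : ℝ) - n * w l) = 0 := by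
        rw [Finset.sum_sub_distrib, hcntsum, ← Finset.mul_sum, hw]
        ring
      have h6 := avg hμ hcpos hc hδ0.le hδh (fun l => ((cnt Prod.fst u l j0 : ℕ) : ℝ) - n * w l) hzs
      have h7 : ∑ σ, μ σ * ((∑ B ∈ sel k u, Φ (move σ B u) (Matrix.vecMul w (A δ σ))) / s) ≤
          ρ * Φ u w + (1 - ρ) * KK := by
        have h8 : ∑ σ, μ σ * ((∑ B ∈ sel k u, Φ (move σ B u) (Matrix.vecMul w (A δ σ))) / s) ≤
            ∑ σ, (μ σ * (∑ l, ((1 - δ) * ((cnt Prod.fst u l j0 : ℝ) - n * w l) +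
              δ * ((cnt Prod.fst u (σ⁻¹ l) j0 : ℝ) - n * w (σ⁻¹ l))) ^ 2) + μ σ * (4 * d * k)) := by
          refine Finset.sum_le_sum fun σ _ => ?_
          rw [← mul_add]
          exact mul_le_mul_of_nonneg_left (h3 σ) (hμ.1 σ)
        refine h8.trans ?_
        rw [Finset.sum_add_distrib, ← Finset.sum_mul, hμ.2, one_mul, hKρ, hρ, hΦ]
        linarith
      have h9 : T μ k ((T μ k)^[m] g) u ≤ ∑ σ, μ σ * ((KR μ δ)^[m] h (Matrix.vecMul w (A δ σ)) +
          (ρ ^ m * ((∑ B ∈ sel k u, Φ (move σ B u) (Matrix.vecMul w (A δ σ))) / s) +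
            KK * (1 - ρ ^ m)) / θ ^ 2) := by
        unfold T
        exact Finset.sum_le_sum fun σ _ => mul_le_mul_of_nonneg_left (h1 σ) (hμ.1 σ)
      have h10 : ∑ σ, μ σ * ((KR μ δ)^[m] h (Matrix.vecMul w (A δ σ)) +
          (ρ ^ m * ((∑ B ∈ sel k u, Φ (move σ B u) (Matrix.vecMul w (A δ σ))) / s) +
            KK * (1 - ρ ^ m)) / θ ^ 2) =
          KR μ δ ((KR μ δ)^[m] h) w + (ρ ^ m * (∑ σ, μ σ *
            ((∑ B ∈ sel k u, Φ (move σ B u) (Matrix.vecMul w (A δ σ))) / s)) +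
            KK * (1 - ρ ^ m)) / θ ^ 2 := by
        have h11 : ∀ σ : Equiv.Perm (Fin d), μ σ * ((KR μ δ)^[m] h (Matrix.vecMul w (A δ σ)) +
            (ρ ^ m * ((∑ B ∈ sel k u, Φ (move σ B u) (Matrix.vecMul w (A δ σ))) / s) +
              KK * (1 - ρ ^ m)) / θ ^ 2) =
            μ σ * (KR μ δ)^[m] h (Matrix.vecMul w (A δ σ)) +
            (ρ ^ m / θ ^ 2 * (μ σ *
              ((∑ B ∈ sel k u, Φ (move σ B u) (Matrix.vecMul w (A δ σ))) / s)) +
              μ σ * (KK * (1 - ρ ^ m) / θ ^ 2)) := by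
          intro σ
          ring
        rw [Finset.sum_congr rfl fun σ _ => h11 σ, Finset.sum_add_distrib, Finset.sum_add_distrib,
          ← Finset.mul_sum, ← Finset.sum_mul, hμ.2]
        unfold KR
        ring
      rw [h10] at h9
      refine h9.trans ?_
      have h12 : ρ ^ m * (∑ σ, μ σ *
            ((∑ B ∈ sel k u, Φ (move σ B u) (Matrix.vecMul w (A δ σ))) / s)) ≤
          ρ ^ m * (ρ * Φ u w + (1 - ρ) * KK) := mul_le_mul_of_nonneg_left h7 (by positivity)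
      have h13 : (ρ ^ m * (∑ σ, μ σ *
            ((∑ B ∈ sel k u, Φ (move σ B u) (Matrix.vecMul w (A δ σ))) / s)) +
            KK * (1 - ρ ^ m)) / θ ^ 2 ≤
          (ρ ^ (m + 1) * Φ u w + KK * (1 - ρ ^ (m + 1))) / θ ^ 2 := by
        apply div_le_div_of_nonneg_right _ hθ2.le
        calc _ ≤ ρ ^ m * (ρ * Φ u w + (1 - ρ) * KK) + KK * (1 - ρ ^ m) := by linarith
          _ = _ := by ring
      linarith
  -- the start
  have hstart : Bal (Prod.fst : Ball d n → Fin d) := by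
    intro i
    have h1 : (univ.filter fun b : Ball d n => b.1 = i) = ({i} : Finset (Fin d)) ×ˢ univ := by
      ext b
      simp [Prod.ext_iff, eq_comm]
    rw [h1, Finset.card_product]
    simp
  have hw1 : ∑ l, (Pi.single j0 (1:ℝ) : Fin d → ℝ) l = 1 := by
    simp
  have h2 := main m Prod.fst (Pi.single j0 1) hstart hw1
  have h3 : Φ Prod.fst (Pi.single j0 1) = 0 := by
    rw [hΦ]
    refine Finset.sum_eq_zero fun l _ => ?_
    have h4 : ((cnt (Prod.fst : Ball d n → Fin d) Prod.fst l j0 : ℕ) : ℝ) =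
        n * (Pi.single j0 (1:ℝ) : Fin d → ℝ) l := by
      unfold cnt
      by_cases h5 : l = j0
      · rw [h5]
        have h6 : (univ.filter fun b : Ball d n => b.1 = j0 ∧ b.1 = j0) =
            univ.filter fun b : Ball d n => b.1 = j0 := by
          refine Finset.filter_congr fun b _ => ?_
          exact and_self_iff
        rw [h6, hstart j0]
        simp
      · have h6 : (univ.filter fun b : Ball d n => b.1 = l ∧ b.1 = j0) = ∅ := by
          refine Finset.filter_eq_empty_iff.2 fun b _ h7 => ?_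
          exact h5 (h7.1.symm.trans h7.2)
        rw [h6, Pi.single_eq_of_ne h5]
        simp
    rw [h4]
    ring
  rw [h3] at h2
  unfold E
  refine h2.trans ?_
  have h4 : (ρ ^ m * 0 + KK * (1 - ρ ^ m)) / θ ^ 2 ≤ 4 * d / c * n / θ ^ 2 := by
    apply div_le_div_of_nonneg_right _ hθ2.le
    have h5 : 0 ≤ KK * ρ ^ m := by positivity
    have h6 : KK = 4 * d / c * n := by rw [hKK]; ring
    rw [← h6]
    linarith
  linarith

end Pool.Agent.H340.BKN

namespace Pool.Agent.H340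

open Pool.Agent.H979.BK

/-- NOISE -/
theorem bk_noise (hsym : S_SYM) : S_NOISE := BKN.noise hsym

end Pool.Agent.H340
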